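import Pool.Agent.H54.Hilb

namespace Pool.Agent.Results.MP_27276c_an.IntegralNotSharp

open Pool.Agent.H54.Hilb

theorem result : ∃ C : ℝ, 0 < C ∧ C < K (4 / 3) (4 / 3) ∧ HoldsI (4 / 3) (4 / 3) C :=
  ⟨C0, C0_pos, C0_lt, holdsI⟩

end Pool.Agent.Results.MP_27276c_an.IntegralNotSharp
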